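import Pool.Agent.Helper95_PSC.Stmts

set_option autoImplicit false

/-!
The Novikov trick.
-/

namespace Pool.Agent.PSC.H60

variable {m : ℕ}

theorem ht_add (l : Fin (m + 1) → ℝ) (u v : Lat m) : ht l (u + v) = ht l u + ht l v := by
  simp only [ht, Pi.add_apply, Int.cast_add, mul_add, Finset.sum_add_distrib]

theorem ht_zero (l : Fin (m + 1) → ℝ) : ht l (0 : Lat m) = 0 := by
  simp only [ht, Pi.zero_apply, Int.cast_zero, mul_zero, Finset.sum_const_zero]

theorem pow_supp (l : Fin (m + 1) → ℝ) (p : R m) (δ : ℝ)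
    (hp : ∀ v ∈ p.coeff.support, ht l v ≤ -δ) (n : ℕ) :
    ∀ v ∈ (p ^ n).coeff.support, ht l v ≤ -((n : ℝ) * δ) := by
  classical
  induction n with
  | zero =>
    intro v hv
    rw [pow_zero] at hv
    have h0 : v = 0 := Finset.mem_zero.1 (AddMonoidAlgebra.support_coeff_one_subset hv)
    rw [h0, ht_zero]
    simp
  | succ n ih =>
    intro v hv
    rw [pow_succ] at hv
    have h1 := AddMonoidAlgebra.support_coeff_mul_subset _ _ hv
    obtain ⟨a, ha, b, hb, hab⟩ := Finset.mem_add.1 h1
    rw [← hab, ht_add]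
    have h2 := ih a ha
    have h3 := hp b hb
    push_cast
    linarith

theorem nov : NovStmt := by
  classical
  intro m l hinj f hf H
  have hne : f.coeff.support.Nonempty := by
    rw [Finsupp.support_nonempty_iff]
    exact fun h => hf (AddMonoidAlgebra.coeff_eq_zero.1 h)
  obtain ⟨v0, hv0, hmax⟩ := Finset.exists_max_image f.coeff.support (ht l) hne
  have hc0 : f.coeff v0 ≠ 0 := Finsupp.mem_support_iff.1 hv0
  have hcoef : ∀ v, ((AddMonoidAlgebra.single (-v0) (f.coeff v0)⁻¹ : R m) * f).coeff v =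
      (f.coeff v0)⁻¹ * f.coeff (v0 + v) := by
    intro v
    apply AddMonoidAlgebra.coeff_single_mul_eq_mul_coeff
    intro w _
    constructor
    · intro h
      rw [← h]
      abel
    · intro h
      rw [h]
      abel
  set g0 : R m := AddMonoidAlgebra.single (-v0) (f.coeff v0)⁻¹ with hg0
  set p : R m := 1 - g0 * f with hpdef
  have hpc : ∀ v, p.coeff v = (if v = 0 then 1 else 0) - (f.coeff v0)⁻¹ * f.coeff (v0 + v) := by
    intro v
    rw [← hcoef v, hpdef]
    have h1 : (1 : R m).coeff v = if v = 0 then 1 else 0 := by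
      have h2 : (1 : R m).coeff = Finsupp.single 0 1 := rfl
      rw [h2, Finsupp.single_apply]
      by_cases hv : v = 0
      · rw [if_pos hv, if_pos hv.symm]
      · rw [if_neg hv, if_neg (fun h => hv h.symm)]
    have h3 : (1 - g0 * f : R m).coeff v = (1 : R m).coeff v - (g0 * f : R m).coeff v := rfl
    rw [h3, h1]
  have hp : ∀ v ∈ p.coeff.support, ht l v < 0 := by
    intro v hv
    rw [Finsupp.mem_support_iff, hpc v] at hv
    by_cases h0 : v = 0
    · exfalso
      apply hv
      rw [if_pos h0, h0, add_zero, inv_mul_cancel₀ hc0, sub_self]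
    · rw [if_neg h0, zero_sub] at hv
      have h1 : f.coeff (v0 + v) ≠ 0 := by
        intro h
        apply hv
        rw [h, mul_zero, neg_zero]
      have h2 := hmax (v0 + v) (Finsupp.mem_support_iff.2 h1)
      rw [ht_add] at h2
      rcases lt_or_eq_of_le (by linarith : ht l v ≤ 0) with h3 | h3
      · exact h3
      · exact absurd (hinj (h3.trans (ht_zero l).symm)) h0
  obtain ⟨δ, hδ, hδ'⟩ : ∃ δ : ℝ, 0 < δ ∧ ∀ v ∈ p.coeff.support, ht l v ≤ -δ := by
    rcases p.coeff.support.eq_empty_or_nonempty with h | h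
    · refine ⟨1, one_pos, ?_⟩
      intro v hv
      rw [h] at hv
      exact absurd hv (Finset.notMem_empty v)
    · obtain ⟨v1, hv1, hv1'⟩ := Finset.exists_max_image p.coeff.support (ht l) h
      refine ⟨-(ht l v1), by linarith [hp v1 hv1], ?_⟩
      intro v hv
      rw [neg_neg]
      exact hv1' v hv
  obtain ⟨n, hn⟩ := exists_nat_gt (H / δ)
  refine ⟨(∑ i ∈ Finset.range n, p ^ i) * g0, p ^ n, ?_, ?_⟩
  · have h1 : g0 * f = 1 - p := by rw [hpdef]; ring
    rw [mul_assoc, h1, geom_sum_mul_neg]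
  · intro v hv
    have h1 := pow_supp l p δ hδ' n v hv
    have h2 : H < (n : ℝ) * δ := by rwa [div_lt_iff₀ hδ] at hn
    linarith

end Pool.Agent.PSC.H60
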